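import Mathlib

namespace Pool.Agent.Results.MP_285f62_co.Counter

open SimpleGraph Finset

/-- The vertex set is partitioned into triples each spanning a triangle. -/
def HasTriangleFactor {V : Type} (H : SimpleGraph V) : Prop :=
  ∃ P : Finset (Finset V), (∀ s ∈ P, H.IsNClique 3 s) ∧ ∀ v, ∃! s, s ∈ P ∧ v ∈ s

/-- The blow-up `G(t)`: each vertex is replaced by an independent set of size `t`. -/
def blowUp {V : Type} (G : SimpleGraph V) (t : ℕ) : SimpleGraph (V × Fin t) := G.comap Prod.fst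

def G9 : SimpleGraph (Fin 9) where
  Adj u w := u ≠ w ∧ (u = 0 ∨ w = 0 ∨ (u ≤ 4 ↔ w ≤ 4))
  symm := ⟨by decide⟩
  loopless := ⟨by decide⟩

instance : DecidableRel G9.Adj := fun u w => by unfold G9; infer_instance

instance (t : ℕ) : DecidableRel (blowUp G9 t).Adj := fun u w =>
  inferInstanceAs (Decidable (G9.Adj u.1 w.1))

lemma of_list {V : Type} [DecidableEq V] (H : SimpleGraph V) [DecidableRel H.Adj]
    (L : List (V × V × V))
    (h1 : (L.all fun p => H.Adj p.1 p.2.1 ∧ H.Adj p.1 p.2.2 ∧ H.Adj p.2.1 p.2.2) = true)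
    (h2 : ∀ v, (L.filter fun p => v = p.1 ∨ v = p.2.1 ∨ v = p.2.2).length = 1) :
    HasTriangleFactor H := by
  refine ⟨(L.map fun p => ({p.1, p.2.1, p.2.2} : Finset V)).toFinset, ?_, fun v => ?_⟩
  · intro s hs
    obtain ⟨p, hp, rfl⟩ := List.mem_map.1 (List.mem_toFinset.1 hs)
    exact is3Clique_triple_iff.2 (of_decide_eq_true (List.all_eq_true.1 h1 p hp))
  · obtain ⟨p, hp⟩ := List.length_eq_one_iff.1 (h2 v)
    have h3 : p ∈ L.filter fun p => v = p.1 ∨ v = p.2.1 ∨ v = p.2.2 := by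
      rw [hp]; exact List.mem_singleton_self p
    rw [List.mem_filter] at h3
    refine ⟨{p.1, p.2.1, p.2.2}, ⟨List.mem_toFinset.2 (List.mem_map.2 ⟨p, h3.1, rfl⟩),
      by simpa using h3.2⟩, ?_⟩
    rintro r ⟨hr, hv⟩
    obtain ⟨q, hq, rfl⟩ := List.mem_map.1 (List.mem_toFinset.1 hr)
    have h4 : q ∈ L.filter fun p => v = p.1 ∨ v = p.2.1 ∨ v = p.2.2 :=
      List.mem_filter.2 ⟨hq, by simpa using hv⟩
    rw [hp, List.mem_singleton] at h4
    rw [h4]

lemma no_factor : ¬ HasTriangleFactor G9 := by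
  rintro ⟨P, h1, h2⟩
  let B : Finset (Fin 9) := {5, 6, 7, 8}
  have h3 : ∑ s ∈ P, (B ∩ s).card = B.card * 1 := by
    refine sum_card_inter fun a _ => ?_
    obtain ⟨s, hs, hu⟩ := h2 a
    refine card_eq_one.2 ⟨s, ?_⟩
    ext r
    simp only [mem_filter, mem_singleton]
    exact ⟨fun h => hu r h, fun h => h ▸ hs⟩
  have key : ∀ a b : Fin 9, G9.Adj a b → ∀ c, G9.Adj a c → G9.Adj b c →
      (B ∩ {a, b, c}).card % 3 ≠ 1 ∧ ((0 : Fin 9) ∉ ({a, b, c} : Finset (Fin 9)) →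
        3 ∣ (B ∩ {a, b, c}).card) := by decide +kernel
  have key2 : ∀ s ∈ P, (B ∩ s).card % 3 ≠ 1 ∧ ((0 : Fin 9) ∉ s → 3 ∣ (B ∩ s).card) := by
    intro s hs
    obtain ⟨a, b, c, e1, e2, e3, rfl⟩ := is3Clique_iff.1 (h1 s hs)
    exact key a b e1 c e2 e3
  obtain ⟨s, hs, hu⟩ := h2 0
  rw [← add_sum_erase _ _ hs.1] at h3
  have h4 : 3 ∣ ∑ r ∈ P.erase s, (B ∩ r).card := by
    refine dvd_sum fun r hr => (key2 r (mem_erase.1 hr).2).2 fun h0 => ?_
    exact (mem_erase.1 hr).1 (hu r ⟨(mem_erase.1 hr).2, h0⟩)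
  have h5 := (key2 s hs.1).1
  have h6 : B.card = 4 := by decide
  omega

theorem result :
    ∃ (n : ℕ) (G : SimpleGraph (Fin n)) (t : ℕ), 1 ≤ t ∧
      HasTriangleFactor (blowUp G t) ∧ HasTriangleFactor (blowUp G (t + 1)) ∧
      ¬ HasTriangleFactor G := by
  refine ⟨9, G9, 2, by norm_num, ?_, ?_, no_factor⟩
  · exact of_list _ [((0, 0), (1, 0), (2, 0)),
      ((1, 1), (3, 0), (4, 0)),
      ((2, 1), (3, 1), (4, 1)),
      ((0, 1), (5, 0), (6, 0)),
      ((5, 1), (7, 0), (8, 0)),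
      ((6, 1), (7, 1), (8, 1))] (by decide) (by decide)
  · exact of_list _ [((0, 0), (1, 0), (2, 0)),
      ((0, 1), (1, 1), (2, 1)),
      ((0, 2), (3, 0), (4, 0)),
      ((1, 2), (3, 1), (4, 1)),
      ((2, 2), (3, 2), (4, 2)),
      ((5, 0), (6, 0), (7, 0)),
      ((5, 1), (6, 1), (8, 0)),
      ((5, 2), (7, 1), (8, 1)),
      ((6, 2), (7, 2), (8, 2))] (by decide) (by decide)

end Pool.Agent.Results.MP_285f62_co.Counter
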